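import Pool.Agent.helper53.EXT.SpecG

/-!
# Project EXT (MP_561ff4_al), block G: row G5N

An element of the group which is the identity on the fixed vectors acts as the identity matrix.
-/

set_option autoImplicit false

open Finset

namespace Pool.Agent.EXT

open Pool.Agent.EXC

theorem G5N_cf_sum {K : Type} [Field K] (f : Fin 4 → Lm C6 K) (w : Fin 6 → ℤ) : cf (∑ i, f i) w = ∑ i, cf (f i) w := by
  rw [Fin.sum_univ_four, Fin.sum_univ_four]
  simp only [cf_add]

theorem G5N_si_sum {K : Type} [Field K] (τ : K ≃+* K) (ha : ∀ v w : Lm C6 K, si τ (v + w) = si τ v + si τ w)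
    (f : Fin 4 → Lm C6 K) : si τ (∑ i, f i) = ∑ i, si τ (f i) := by
  rw [Fin.sum_univ_four, Fin.sum_univ_four]
  simp only [ha]

theorem G5N (hG5R : G5R_stmt) (hSGR : SGR_stmt) (hSIG : SIG_stmt) : G5N_stmt := by
  intro K _ τ hτ g hg P hP hfix
  obtain ⟨-, hS, -, hinj, hpv, -, -, -⟩ := hG5R
  obtain ⟨hadd, hsm, hinv, -, -, hE, -, -⟩ := hSIG K τ hτ
  have hcomm := ((hSGR K τ hτ).2.2.2.2.2 g hg).2.2
  have hEj : ∀ j, (E C6 (gm j) : Lm C6 K) = io4 (Pi.single j 1) := by
    intro j
    unfold io4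
    rw [Finset.sum_eq_single j]
    · rw [Pi.single_eq_same, one_smul]
    · intro i _ hij
      rw [Pi.single_eq_of_ne hij, zero_smul]
    · intro h
      exact absurd (Finset.mem_univ j) h
  have hio : ∀ (c : Fin 4 → K) (i : Fin 4), cf (io4 c) (gm i) = c i := by
    intro c i
    unfold io4
    rw [G5N_cf_sum, Finset.sum_eq_single i]
    · rw [cf_smul, cf_E C6 (hS i).1, if_pos rfl, mul_one]
    · intro k _ hk
      rw [cf_smul, cf_E C6 (hS k).1, if_neg (fun h => hk (hinj _ _ h).symm), mul_zero]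
    · intro h
      exact absurd (Finset.mem_univ i) h
  have hsio : ∀ (c : Fin 4 → K) (i : Fin 4), cf (si τ (io4 c)) (gm i) = 0 := by
    intro c i
    unfold io4
    rw [G5N_si_sum τ hadd, G5N_cf_sum]
    apply Finset.sum_eq_zero
    intro k _
    rw [hsm, hE _ (hS k).1, cf_smul, cf_smul]
    have hpr : ip C6 (pv (gm k)) (pv (gm k)) = 2 := by
      by_contra hne
      have h1 := hE (gm k) (hS k).1
      rw [E_eq_zero C6 hne, smul_zero] at h1
      have h2 := hinv (E C6 (gm k) : Lm C6 K)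
      rw [h1] at h2
      have h3 : si τ (0 : Lm C6 K) = 0 := by
        have h4 := hsm 0 (0 : Lm C6 K)
        rw [map_zero, zero_smul, zero_smul] at h4
        exact h4
      rw [h3] at h2
      exact E_ne_zero (F := K) C6 (hS k).1 h2.symm
    rw [cf_E C6 hpr, if_neg (fun h => hpv k i h.symm), mul_zero, mul_zero]
  ext i j
  have hv : (E C6 (gm j) : Lm C6 K) + si τ (E C6 (gm j)) ∈ LT τ := by
    change si τ _ = _
    rw [hadd, hinv, add_comm]
  have h1 := hfix _ hv
  rw [map_add, ← hcomm, hEj j, hP] at h1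
  have h2 := congrArg (fun x => cf x (gm i)) h1
  simp only [cf_add] at h2
  rw [hio, hio, hsio, hsio, add_zero, add_zero] at h2
  rw [Matrix.mulVec_single_one] at h2
  have h3 : P.col j i = P i j := rfl
  rw [h3] at h2
  rw [h2, Matrix.one_apply, Pi.single_apply]

end Pool.Agent.EXT
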