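import Pool.Agent.helper53.EXT.SpecG

/-!
# Project EXT (MP_561ff4_al), block G: row G5P

The order of a matrix with `Z⁴ + eZ³ + Z² + eZ + 1 = 0` is divisible by 5.
-/

set_option autoImplicit false

open Finset

namespace Pool.Agent.EXT

open Pool.Agent.EXC

theorem G5P : G5P_stmt := by
  intro K _ h5 Z e he hZ m hm
  by_contra hnd
  have hdm : orderOf Z ∣ m := orderOf_dvd_of_pow_eq_one hm
  rcases he with rfl | rfl
  · rw [one_smul, one_smul] at hZ
    have h1 : Z ^ 5 - 1 = (Z - 1) * (Z ^ 4 + Z ^ 3 + Z ^ 2 + Z + 1) := by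
      noncomm_ring
    rw [hZ, mul_zero, sub_eq_zero] at h1
    have h2 : orderOf Z ∣ 5 := orderOf_dvd_of_pow_eq_one h1
    rcases (Nat.dvd_prime (by norm_num)).1 h2 with h3 | h3
    · rw [orderOf_eq_one_iff] at h3
      rw [h3] at hZ
      have h4 := congrFun (congrFun hZ 0) 0
      simp only [one_pow, Matrix.add_apply, Matrix.one_apply_eq, Matrix.zero_apply] at h4
      exact h5 (by linear_combination h4)
    · rw [h3] at hdm
      exact hnd hdm
  · rw [neg_one_smul, neg_one_smul] at hZ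
    have h1 : Z ^ 5 + 1 = (Z + 1) * (Z ^ 4 + -Z ^ 3 + Z ^ 2 + -Z + 1) := by
      noncomm_ring
    rw [hZ, mul_zero] at h1
    have h1' : Z ^ 5 = -1 := eq_neg_of_add_eq_zero_left h1
    have h10 : Z ^ 10 = 1 := by
      have : Z ^ 10 = Z ^ 5 * Z ^ 5 := by rw [← pow_add]
      rw [this, h1']
      simp
    have h2 : orderOf Z ∣ 10 := orderOf_dvd_of_pow_eq_one h10
    have h3 : orderOf Z ∣ 2 := by
      have hc : Nat.Coprime (orderOf Z) 5 := by
        rw [Nat.coprime_comm, Nat.Prime.coprime_iff_not_dvd (by norm_num)]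
        exact fun h => hnd (h.trans hdm)
      exact hc.dvd_of_dvd_mul_right (by norm_num; exact h2)
    have h4 : Z ^ 2 = 1 := orderOf_dvd_iff_pow_eq_one.1 h3
    have h5' : Z ^ 3 = Z := by rw [pow_succ, h4, one_mul]
    have h6 : Z ^ 4 = 1 := by
      have : Z ^ 4 = Z ^ 2 * Z ^ 2 := by rw [← pow_add]
      rw [this, h4, one_mul]
    rw [h6, h5', h4] at hZ
    have h7 : Z + Z = 3 := by
      have h8 : (3 : Matrix (Fin 4) (Fin 4) K) - (Z + Z) = 1 + -Z + 1 + -Z + 1 := by
        have : (3 : Matrix (Fin 4) (Fin 4) K) = 1 + 1 + 1 := by norm_num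
        rw [this]
        abel
      rw [hZ] at h8
      exact (sub_eq_zero.1 h8).symm
    have h9 : (Z + Z) * (Z + Z) = 9 := by
      rw [h7]
      norm_num
    have h10' : (Z + Z) * (Z + Z) = 4 := by
      have : (Z + Z) * (Z + Z) = Z ^ 2 + Z ^ 2 + Z ^ 2 + Z ^ 2 := by
        noncomm_ring
      rw [this, h4]
      norm_num
    rw [h10'] at h9
    have h11 : (5 : Matrix (Fin 4) (Fin 4) K) = 0 := by
      have : (9 : Matrix (Fin 4) (Fin 4) K) = 4 + 5 := by norm_num
      rw [this] at h9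
      exact (left_eq_add.1 h9)
    have h12 := congrFun (congrFun h11 0) 0
    rw [Matrix.zero_apply] at h12
    apply h5
    have h13 : (5 : Matrix (Fin 4) (Fin 4) K) = 1 + 1 + 1 + 1 + 1 := by norm_num
    rw [h13] at h12
    simp only [Matrix.add_apply, Matrix.one_apply_eq] at h12
    linear_combination h12

end Pool.Agent.EXT
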